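import Pool.Agent.W269.BL.Stm

set_option autoImplicit false

/-!
# Project BL, part CORE
-/

open Polynomial

namespace Pool.Agent.W210.BL.CORE

open Pool.Agent.W269.BL

universe u

lemma tri_add_four (m : ℕ) : (m + 4) * (m + 4 - 1) / 2 = m * (m - 1) / 2 + (4 * m + 6) := by
  have h1 := Nat.triangle_succ m
  have h2 := Nat.triangle_succ (m + 1)
  have h3 := Nat.triangle_succ (m + 2)
  have h4 := Nat.triangle_succ (m + 3)
  simp only [show m + 1 + 1 = m + 2 from rfl, show m + 2 + 1 = m + 3 from rfl,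
    show m + 3 + 1 = m + 4 from rfl] at *
  omega

lemma tri_mod (m k : ℕ) : ((m + 4 * k) * (m + 4 * k - 1) / 2) % 2 = (m * (m - 1) / 2) % 2 := by
  induction k with
  | zero => simp
  | succ k ih =>
    have := tri_add_four (m + 4 * k)
    rw [show m + 4 * (k + 1) = m + 4 * k + 4 by ring, this]
    omega

lemma sg_add (K : Type u) [Field K] [Fintype K] [DecidableEq K] (a g k : ℕ) (b : K) :
    sg K a (g + 4 * k) b = sg K a g b := by
  unfold sg
  have e1 : ((-1 : ℤ)) ^ (a + (g + 4 * k)) = (-1) ^ (a + g) := by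
    rw [neg_one_pow_eq_pow_mod_two, neg_one_pow_eq_pow_mod_two (n := a + g)]
    congr 1
    omega
  have e2 : ((-1 : K)) ^ ((a + (g + 4 * k)) * (a + (g + 4 * k) - 1) / 2 + (a + (g + 4 * k)) * a)
      = (-1) ^ ((a + g) * (a + g - 1) / 2 + (a + g) * a) := by
    rw [neg_one_pow_eq_pow_mod_two,
      neg_one_pow_eq_pow_mod_two (n := (a + g) * (a + g - 1) / 2 + (a + g) * a)]
    congr 1
    have h := tri_mod (a + g) k
    rw [show a + (g + 4 * k) = a + g + 4 * k by ring]
    have h2 : ((a + g + 4 * k) * a) % 2 = ((a + g) * a) % 2 := by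
      rw [show (a + g + 4 * k) * a = (a + g) * a + 2 * (2 * k * a) by ring]
      omega
    rw [Nat.add_mod, h, h2, ← Nat.add_mod]
  rw [e1, e2]

lemma sg_congr (K : Type u) [Field K] [Fintype K] [DecidableEq K] (a g g' : ℕ) (b : K)
    (h : g % 4 = g' % 4) : sg K a g b = sg K a g' b := by
  have h1 : sg K a g b = sg K a (g % 4) b := by
    conv_lhs => rw [← Nat.mod_add_div g 4]
    exact sg_add K a (g % 4) (g / 4) b
  have h2 : sg K a g' b = sg K a (g' % 4) b := by
    conv_lhs => rw [← Nat.mod_add_div g' 4]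
    exact sg_add K a (g' % 4) (g' / 4) b
  rw [h1, h2, h]

lemma sg_pm (K : Type u) [Field K] [Fintype K] [DecidableEq K] (a g : ℕ) (b : K) (hb : b ≠ 0) :
    sg K a g b = 1 ∨ sg K a g b = -1 := by
  unfold sg
  have hne : ((-1 : K)) ^ ((a + g) * (a + g - 1) / 2 + (a + g) * a) * b ^ a ≠ 0 :=
    mul_ne_zero (pow_ne_zero _ (by simp)) (pow_ne_zero _ hb)
  rcases neg_one_pow_eq_or ℤ (a + g) with h1 | h1 <;>
    rcases quadraticChar_dichotomy hne with h2 | h2 <;> rw [h1, h2] <;> simp

theorem main : StmSIGN.{u} → StmEY.{u} → StmED.{u} → StmEV.{u} → StmEF.{u} → StmCORE.{u} := by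
  classical
  intro hSIGN hEY hED hEV hEF K _ _ p _ _ hp2 n A b ε hA hb hnp hsmall hε c
  have h2 : (2 : K) ≠ 0 := by
    apply Ring.two_ne_zero
    rw [ringChar.eq_iff.mpr (inferInstance : CharP K p)]
    exact hp2
  obtain ⟨y, hy, hy0, hyc, P, hP⟩ := hEY K n A b hA hb hnp c
  set τ : Fin n → ℤ := fun j => ε j * sg K (A j).natDegree c (b j) with hτdef
  have hτ : ∀ j, τ j = 1 ∨ τ j = -1 := by
    intro j
    rcases hε j with h1 | h1 <;> rcases sg_pm K (A j).natDegree c (b j) (hb j) with h3 | h3 <;>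
      simp only [hτdef] <;> rw [h1, h3] <;> simp
  obtain ⟨R, hRm, hRsq, D₀, hD⟩ := hED K h2 n A b y P τ hA hb hy hy0 hsmall hP hτ
  obtain ⟨G₀, hG₀⟩ := hEV K R hRsq D₀
  have hchar := hD (derivative G₀) hG₀
  have hlm : ∀ j, (A j * y + C (b j)).Monic := by
    intro j
    apply ((hA j).mul hy).add_of_left
    refine lt_of_le_of_lt degree_C_le ?_
    rw [← natDegree_pos_iff_degree_pos, (hA j).natDegree_mul hy]
    omega
  have hld : ∀ j, 0 < (A j * y + C (b j)).natDegree := by
    intro j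
    rw [natDegree_add_C, (hA j).natDegree_mul hy]
    omega
  have hcop : ∀ j, IsCoprime (A j * y + C (b j))
      (A j ^ 2 * derivative G₀ - C (b j) * derivative (A j)) := by
    intro j
    rw [← rs_ne_zero_iff (hlm j)]
    intro h0
    have := hchar j
    rw [h0, quadraticChar_zero] at this
    rcases hτ j with h | h <;> rw [h] at this <;> norm_num at this
  have hM0 : ∀ j, A j ^ 2 * derivative G₀ - C (b j) * derivative (A j) ≠ 0 := by
    intro j h0
    have h := hcop j
    rw [h0, isCoprime_zero_right] at h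
    have := natDegree_eq_zero_of_isUnit h
    have := hld j
    omega
  obtain ⟨S, h₀, hS, hSh⟩ := hEF K p
    (∏ j, (A j ^ 2 * derivative G₀ - C (b j) * derivative (A j))) (y - G₀)
    (Finset.prod_ne_zero_iff.mpr fun j _ => hM0 j)
  refine ⟨G₀, S, h₀, hS, ?_⟩
  intro h hh hhS hdeg hmod j
  have hhp : (h ^ p).natDegree = p * h.natDegree := hh.natDegree_pow p
  have hlt : G₀.natDegree < (h ^ p).natDegree := by rw [hhp]; exact hdeg
  have hGd : (G₀ + h ^ p).natDegree = p * h.natDegree := by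
    rw [natDegree_add_eq_right_of_natDegree_lt hlt, hhp]
  have hGm : (G₀ + h ^ p).Monic := by
    apply (hh.pow p).add_of_right
    exact degree_lt_degree hlt
  have hder : derivative (G₀ + h ^ p) = derivative G₀ := by
    rw [derivative_add, derivative_pow, CharP.cast_eq_zero, C_0]
    simp
  have key := hSIGN K h2 (A j) (G₀ + h ^ p) y (b j) (hA j) hGm hy (hb j)
    (by rw [hGd]; omega) hy0 (by rw [hGd, hyc]; omega)
    (by rw [hder]; exact hM0 j) (by rw [hder]; exact hcop j)
    (by
      rw [hder]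
      intro Q hQ hQM
      have := hSh h hhS Q hQ (hQM.trans (Finset.dvd_prod_of_mem _ (Finset.mem_univ j)))
      rw [show G₀ + h ^ p - y = h ^ p - (y - G₀) by ring]
      exact this)
  refine ⟨key.1.ne_zero, ?_⟩
  rw [key.2, hder, hchar j, hGd, sg_congr K (A j).natDegree (p * h.natDegree) c (b j) hmod]
  simp only [hτdef]
  rcases sg_pm K (A j).natDegree c (b j) (hb j) with h3 | h3 <;> rw [h3] <;> simp

end Pool.Agent.W210.BL.CORE
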